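import Mathlib

set_option autoImplicit false

namespace Run7.h626.RP

/-- the terms of the binomial expansion of `(m + r) ^ (m + r)` -/
def bt (m r k : ℕ) : ℕ := (m + r).choose k * m ^ k * r ^ (m + r - k)

theorem bt_up (m r k : ℕ) (hk : k < m) : bt m r k ≤ bt m r (k + 1) := by
  have h1 : (m + r).choose (k + 1) * (k + 1) = (m + r).choose k * (m + r - k) :=
    Nat.choose_succ_right_eq _ _
  obtain ⟨s, hs⟩ : ∃ s, m + r = k + 1 + s := ⟨m + r - (k + 1), by omega⟩
  have e1 : m + r - k = s + 1 := by omega
  have e2 : m + r - (k + 1) = s := by omega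
  unfold bt
  rw [e1, e2]
  rw [e1] at h1
  have h2 : r * (k + 1) ≤ (s + 1) * m := by
    obtain ⟨t, rfl⟩ : ∃ t, m = k + 1 + t := ⟨m - (k + 1), by omega⟩
    have : s = t + r := by omega
    subst this
    nlinarith [Nat.zero_le t, Nat.zero_le r, Nat.zero_le k]
  have h3 : (m + r).choose k * m ^ k * r ^ (s + 1) * (k + 1) ≤
      (m + r).choose (k + 1) * m ^ (k + 1) * r ^ s * (k + 1) := by
    calc (m + r).choose k * m ^ k * r ^ (s + 1) * (k + 1)
        = (m + r).choose k * m ^ k * r ^ s * (r * (k + 1)) := by ring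
      _ ≤ (m + r).choose k * m ^ k * r ^ s * ((s + 1) * m) := Nat.mul_le_mul_left _ h2
      _ = ((m + r).choose k * (s + 1)) * m ^ (k + 1) * r ^ s := by ring
      _ = ((m + r).choose (k + 1) * (k + 1)) * m ^ (k + 1) * r ^ s := by rw [h1]
      _ = _ := by ring
  exact Nat.le_of_mul_le_mul_right h3 (Nat.succ_pos k)

theorem bt_down (m r k : ℕ) (hk : m ≤ k) (hk2 : k < m + r) : bt m r (k + 1) ≤ bt m r k := by
  have h1 : (m + r).choose (k + 1) * (k + 1) = (m + r).choose k * (m + r - k) :=
    Nat.choose_succ_right_eq _ _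
  obtain ⟨s, hs⟩ : ∃ s, m + r = k + 1 + s := ⟨m + r - (k + 1), by omega⟩
  have e1 : m + r - k = s + 1 := by omega
  have e2 : m + r - (k + 1) = s := by omega
  unfold bt
  rw [e1, e2]
  rw [e1] at h1
  have h2 : (s + 1) * m ≤ r * (k + 1) := by
    obtain ⟨t, rfl⟩ : ∃ t, k = m + t := ⟨k - m, by omega⟩
    have : r = t + 1 + s := by omega
    subst this
    nlinarith [Nat.zero_le t, Nat.zero_le s, Nat.zero_le m]
  have h3 : (m + r).choose (k + 1) * m ^ (k + 1) * r ^ s * (k + 1) ≤
      (m + r).choose k * m ^ k * r ^ (s + 1) * (k + 1) := by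
    calc (m + r).choose (k + 1) * m ^ (k + 1) * r ^ s * (k + 1)
        = ((m + r).choose (k + 1) * (k + 1)) * m ^ (k + 1) * r ^ s := by ring
      _ = ((m + r).choose k * (s + 1)) * m ^ (k + 1) * r ^ s := by rw [h1]
      _ = (m + r).choose k * m ^ k * r ^ s * ((s + 1) * m) := by ring
      _ ≤ (m + r).choose k * m ^ k * r ^ s * (r * (k + 1)) := Nat.mul_le_mul_left _ h2
      _ = _ := by ring
  exact Nat.le_of_mul_le_mul_right h3 (Nat.succ_pos k)

theorem bt_max (m r k : ℕ) (hk : k ≤ m + r) : bt m r k ≤ bt m r m := by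
  rcases le_total k m with h | h
  · obtain ⟨d, hd⟩ : ∃ d, m = k + d := ⟨m - k, by omega⟩
    clear hk
    have : ∀ d k, k + d ≤ m → bt m r k ≤ bt m r (k + d) := by
      intro d
      induction d with
      | zero => intro k _; exact le_rfl
      | succ d ih =>
        intro k hk
        have := ih k (by omega)
        exact this.trans (bt_up m r (k + d) (by omega))
    have h2 := this d k (by omega)
    rwa [← hd] at h2
  · obtain ⟨d, rfl⟩ : ∃ d, k = m + d := ⟨k - m, by omega⟩
    have : ∀ d, m + d ≤ m + r → bt m r (m + d) ≤ bt m r m := by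
      intro d
      induction d with
      | zero => intro _; exact le_rfl
      | succ d ih =>
        intro hk
        exact (bt_down m r (m + d) (by omega) (by omega)).trans (ih (by omega))
    exact this d hk

/-- the largest term of the binomial distribution is at least the mean of all terms -/
theorem pow_le_bt (m r : ℕ) : (m + r) ^ (m + r) ≤ (m + r + 1) * bt m r m := by
  have h := add_pow (m : ℕ) r (m + r)
  rw [h]
  calc ∑ k ∈ Finset.range (m + r + 1), m ^ k * r ^ (m + r - k) * (m + r).choose k
      = ∑ k ∈ Finset.range (m + r + 1), bt m r k := by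
        apply Finset.sum_congr rfl
        intro k _
        unfold bt
        ring
    _ ≤ ∑ _k ∈ Finset.range (m + r + 1), bt m r m := by
        apply Finset.sum_le_sum
        intro k hk
        exact bt_max m r k (by have := Finset.mem_range.1 hk; omega)
    _ = _ := by rw [Finset.sum_const, Finset.card_range, smul_eq_mul]

end Run7.h626.RP
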