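import Pool.Agent.Run7.h202.RP.Stm
import Pool.Agent.Run7.h626.RP.BinMax

set_option autoImplicit false

namespace Run7.h626.RP

open Finset Pool.Agent.Run7.h202.RP Pool.Agent.Y395.RS Pool.Agent.Y395.RW

theorem frac_nonneg {V : Type} [Fintype V] [DecidableEq V] (m : ℕ)
    (Q : Finset (Sym2 V) → Prop) : 0 ≤ frac m Q := by
  unfold frac
  positivity

theorem aux (a c x y A B : ℝ) :
    a * (c * (x / A) * (y / B)) = a * (c * x * y) / (A * B) := by
  rw [div_eq_mul_inv, div_eq_mul_inv, div_eq_mul_inv, mul_inv]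
  ring

theorem t_T1 (h : T0) : T1 := by
  intro V _ _ m Q hN hm
  rw [h V ((m : ℝ) / (pairs V).card) Q]
  set N : ℕ := (pairs V).card with hNd
  obtain ⟨r, hr⟩ : ∃ r, N = m + r := ⟨N - m, by omega⟩
  have hN' : (0 : ℝ) < (N : ℝ) := by exact_mod_cast hN
  have hm' : (m : ℝ) ≤ N := by exact_mod_cast hm
  have hp0 : (0 : ℝ) ≤ (m : ℝ) / N := by positivity
  have hp1 : (0 : ℝ) ≤ 1 - (m : ℝ) / N := by
    rw [sub_nonneg, div_le_one hN']
    exact hm'
  have hb := pow_le_bt m r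
  rw [← hr] at hb
  have hb' : (N : ℝ) ^ N ≤ ((N : ℝ) + 1) * ((N.choose m : ℝ) * (m : ℝ) ^ m * (r : ℝ) ^ r) := by
    have e : bt m r m = N.choose m * m ^ m * r ^ r := by
      unfold bt
      rw [← hr]
      congr 2
      omega
    rw [e] at hb
    exact_mod_cast hb
  have hterm : 1 ≤ ((N : ℝ) + 1) *
      ((N.choose m : ℝ) * ((m : ℝ) / N) ^ m * (1 - (m : ℝ) / N) ^ (N - m)) := by
    have e1 : N - m = r := by omega
    have e2 : (1 : ℝ) - (m : ℝ) / N = (r : ℝ) / N := by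
      rw [eq_div_iff hN'.ne', sub_mul, div_mul_cancel₀ _ hN'.ne', hr]
      push_cast
      ring
    rw [e1, e2, div_pow, div_pow]
    have e3 : (N : ℝ) ^ N = (N : ℝ) ^ m * (N : ℝ) ^ r := by
      rw [← pow_add, ← hr]
    rw [e3] at hb'
    have hpos : (0 : ℝ) < (N : ℝ) ^ m * (N : ℝ) ^ r := mul_pos (pow_pos hN' _) (pow_pos hN' _)
    have e4 : ((N : ℝ) + 1) * ((N.choose m : ℝ) * ((m : ℝ) ^ m / (N : ℝ) ^ m) *
        ((r : ℝ) ^ r / (N : ℝ) ^ r)) =
        ((N : ℝ) + 1) * ((N.choose m : ℝ) * (m : ℝ) ^ m * (r : ℝ) ^ r) /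
          ((N : ℝ) ^ m * (N : ℝ) ^ r) := aux _ _ _ _ _ _
    rw [e4, le_div_iff₀ hpos, one_mul]
    exact hb'
  have hsum : ((N.choose m : ℝ) * ((m : ℝ) / N) ^ m * (1 - (m : ℝ) / N) ^ (N - m)) * frac m Q ≤
      ∑ k ∈ range (N + 1), (N.choose k : ℝ) * ((m : ℝ) / N) ^ k *
        (1 - (m : ℝ) / N) ^ (N - k) * frac k Q := by
    apply single_le_sum (f := fun k => (N.choose k : ℝ) * ((m : ℝ) / N) ^ k *
        (1 - (m : ℝ) / N) ^ (N - k) * frac k Q)
    · intro k _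
      have := frac_nonneg k Q
      positivity
    · rw [mem_range]
      omega
  calc frac m Q = 1 * frac m Q := (one_mul _).symm
    _ ≤ (((N : ℝ) + 1) * ((N.choose m : ℝ) * ((m : ℝ) / N) ^ m * (1 - (m : ℝ) / N) ^ (N - m))) *
        frac m Q := mul_le_mul_of_nonneg_right hterm (frac_nonneg m Q)
    _ = ((N : ℝ) + 1) * (((N.choose m : ℝ) * ((m : ℝ) / N) ^ m *
        (1 - (m : ℝ) / N) ^ (N - m)) * frac m Q) := by ring
    _ ≤ _ := mul_le_mul_of_nonneg_left hsum (by positivity)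

end Run7.h626.RP
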