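import Pool.Agent.Run7.h626.RP.T1

set_option autoImplicit false

namespace Run7.h626.RP

open Finset Pool.Agent.Run7.h202.RP Pool.Agent.Y395.RS Pool.Agent.Y395.RW

/-- the variance of the binomial distribution -/
theorem variance (N : ℕ) (p : ℝ) :
    ∑ k ∈ range (N + 1), ((N : ℝ) * p - k) ^ 2 *
      ((N.choose k : ℝ) * p ^ k * (1 - p) ^ (N - k)) = (N : ℝ) * p * (1 - p) := by
  have h := bernsteinPolynomial.variance ℝ N
  have h2 := congrArg (Polynomial.eval p) h
  rw [Polynomial.eval_finsetSum] at h2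
  simpa [bernsteinPolynomial, nsmul_eq_mul] using h2

theorem total (N : ℕ) (p : ℝ) :
    ∑ k ∈ range (N + 1), ((N.choose k : ℝ) * p ^ k * (1 - p) ^ (N - k)) = 1 := by
  have h := add_pow p (1 - p) N
  have e : p + (1 - p) = 1 := by ring
  rw [e, one_pow] at h
  refine Eq.trans (sum_congr rfl fun k _ => ?_) h.symm
  ring

/-- Chebyshev -/
theorem lower_tail (N m : ℕ) (p : ℝ) (h0 : 0 ≤ p) (h1 : p ≤ 1)
    (hm : 2 * (m : ℝ) ≤ p * N) (h8 : 8 ≤ p * N) :
    ∑ k ∈ range m, ((N.choose k : ℝ) * p ^ k * (1 - p) ^ (N - k)) ≤ 1 / 2 := by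
  have hq : 0 ≤ 1 - p := by linarith
  have hb : ∀ k, 0 ≤ (N.choose k : ℝ) * p ^ k * (1 - p) ^ (N - k) := by
    intro k
    positivity
  have hmN : m ≤ N := by
    have h2 : p * (N : ℝ) ≤ N := by
      have : (0 : ℝ) ≤ N := Nat.cast_nonneg N
      nlinarith
    have h3 : (0 : ℝ) ≤ m := Nat.cast_nonneg m
    have : (m : ℝ) ≤ N := by linarith
    exact_mod_cast this
  have hv := variance N p
  have h2 : ∑ k ∈ range m, (p * N / 2) ^ 2 * ((N.choose k : ℝ) * p ^ k * (1 - p) ^ (N - k)) ≤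
      ∑ k ∈ range (N + 1), ((N : ℝ) * p - k) ^ 2 *
      ((N.choose k : ℝ) * p ^ k * (1 - p) ^ (N - k)) := by
    refine le_trans (sum_le_sum fun k hk => ?_) (sum_le_sum_of_subset_of_nonneg
      (range_subset_range.2 (by omega : m ≤ N + 1)) fun k _ _ =>
        mul_nonneg (sq_nonneg _) (hb k))
    apply mul_le_mul_of_nonneg_right _ (hb k)
    have hk' : (k : ℝ) ≤ m := by exact_mod_cast (mem_range.1 hk).le
    apply pow_le_pow_left₀ (by positivity)
    linarith
  rw [hv, ← mul_sum] at h2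
  set S := ∑ k ∈ range m, ((N.choose k : ℝ) * p ^ k * (1 - p) ^ (N - k)) with hS
  have hS0 : 0 ≤ S := sum_nonneg fun k _ => hb k
  set t := p * (N : ℝ) with ht
  have h3 : (N : ℝ) * p * (1 - p) ≤ t := by
    have : (N : ℝ) * p = t := by rw [ht]; ring
    rw [this]
    nlinarith
  have h4 : t * (t * S) ≤ t * 4 := by nlinarith
  have h5 : t * S ≤ 4 := le_of_mul_le_mul_left h4 (by linarith)
  nlinarith

/-- double counting -/
theorem count_step {α : Type} [DecidableEq α] (E : Finset α) (k : ℕ) (Q : Finset α → Prop)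
    (hQ : ∀ F F' : Finset α, F ⊆ F' → Q F → Q F') (A B : Finset (Finset α))
    (hA : ∀ F ∈ A, F ⊆ E ∧ F.card = k ∧ Q F)
    (hB : ∀ F : Finset α, F ⊆ E → F.card = k + 1 → Q F → F ∈ B)
    (hB2 : ∀ F ∈ B, F.card = k + 1) :
    A.card * (E.card - k) ≤ B.card * (k + 1) := by
  classical
  apply card_mul_le_card_mul (fun F F' : Finset α => F ⊆ F')
  · intro F hF
    obtain ⟨h1, h2, h3⟩ := hA F hF
    have hc : ((E \ F).image (fun e => insert e F)).card = E.card - k := by
      rw [card_image_of_injOn, card_sdiff_of_subset h1, h2]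
      intro e he e' he' hee
      rw [mem_coe, mem_sdiff] at he he'
      have : e ∈ insert e' F := by
        have h4 : e ∈ insert e F := mem_insert_self _ _
        have h5 : insert e F = insert e' F := hee
        rwa [h5] at h4
      rcases mem_insert.1 this with h | h
      · exact h
      · exact absurd h he.2
    rw [← hc]
    apply card_le_card
    intro F' hF'
    obtain ⟨e, he, rfl⟩ := mem_image.1 hF'
    rw [mem_sdiff] at he
    rw [mem_bipartiteAbove]
    refine ⟨hB _ (insert_subset he.1 h1) ?_ (hQ _ _ (subset_insert _ _) h3), subset_insert _ _⟩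
    rw [card_insert_of_notMem he.2, h2]
  · intro F' hF'
    have h1 := hB2 F' hF'
    have hc : (F'.powersetCard k).card = k + 1 := by
      rw [card_powersetCard, h1, Nat.choose_succ_self_right]
    rw [← hc]
    apply card_le_card
    intro F hF
    rw [mem_bipartiteBelow] at hF
    rw [mem_powersetCard]
    exact ⟨hF.2, (hA F hF.1).2.1⟩

theorem frac_step {V : Type} [Fintype V] [DecidableEq V] (k : ℕ)
    (Q : Finset (Sym2 V) → Prop) (hQ : ∀ F F', F ⊆ F' → Q F → Q F') (hk : k < (pairs V).card) :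
    frac k Q ≤ frac (k + 1) Q := by
  classical
  unfold frac
  have h := count_step (pairs V) k Q hQ (((pairs V).powersetCard k).filter (fun F => Q F))
    (((pairs V).powersetCard (k + 1)).filter (fun F => Q F)) (by
      intro F hF
      rw [mem_filter, mem_powersetCard] at hF
      exact ⟨hF.1.1, hF.1.2, hF.2⟩) (by
      intro F h1 h2 h3
      rw [mem_filter, mem_powersetCard]
      exact ⟨⟨h1, h2⟩, h3⟩) (by
      intro F hF
      rw [mem_filter, mem_powersetCard] at hF
      exact hF.1.2)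
  have hc : (pairs V).card.choose (k + 1) * (k + 1) = (pairs V).card.choose k *
    ((pairs V).card - k) := Nat.choose_succ_right_eq _ _
  set N := (pairs V).card with hN
  obtain ⟨s, hs⟩ : ∃ s, N = k + 1 + s := ⟨N - (k + 1), by omega⟩
  have e1 : N - k = s + 1 := by omega
  rw [e1] at h hc
  have c1 : 0 < N.choose k := Nat.choose_pos (by omega)
  have c2 : 0 < N.choose (k + 1) := Nat.choose_pos (by omega)
  have h' : ((((pairs V).powersetCard k).filter (fun F => Q F)).card : ℝ) * ((s : ℝ) + 1) ≤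
    ((((pairs V).powersetCard (k + 1)).filter (fun F => Q F)).card : ℝ) * ((k : ℝ) + 1) := by
    exact_mod_cast h
  have hc' : (N.choose (k + 1) : ℝ) * ((k : ℝ) + 1) = (N.choose k : ℝ) * ((s : ℝ) + 1) := by
    exact_mod_cast hc
  have c1' : (0 : ℝ) < (N.choose k : ℝ) := by exact_mod_cast c1
  have c2' : (0 : ℝ) < (N.choose (k + 1) : ℝ) := by exact_mod_cast c2
  have hs0 : (0 : ℝ) < (s : ℝ) + 1 := by positivity
  rw [div_le_div_iff₀ c1' c2']
  set a : ℝ := ((((pairs V).powersetCard k).filter (fun F => Q F)).card : ℝ) with ha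
  set b : ℝ := ((((pairs V).powersetCard (k + 1)).filter (fun F => Q F)).card : ℝ) with hb
  have h6 : (a * (N.choose (k + 1) : ℝ)) * ((s : ℝ) + 1) ≤
      (b * (N.choose k : ℝ)) * ((s : ℝ) + 1) := by
    calc (a * (N.choose (k + 1) : ℝ)) * ((s : ℝ) + 1)
        = (a * ((s : ℝ) + 1)) * (N.choose (k + 1) : ℝ) := by ring
      _ ≤ (b * ((k : ℝ) + 1)) * (N.choose (k + 1) : ℝ) :=
          mul_le_mul_of_nonneg_right h' c2'.le
      _ = b * ((N.choose (k + 1) : ℝ) * ((k : ℝ) + 1)) := by ring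
      _ = _ := by rw [hc']; ring
  exact le_of_mul_le_mul_right h6 hs0

theorem frac_mono {V : Type} [Fintype V] [DecidableEq V] (m : ℕ)
    (Q : Finset (Sym2 V) → Prop) (hQ : ∀ F F', F ⊆ F' → Q F → Q F') :
    ∀ d, m + d ≤ (pairs V).card → frac m Q ≤ frac (m + d) Q := by
  intro d
  induction d with
  | zero => intro _; exact le_rfl
  | succ d ih =>
    intro h
    exact (ih (by omega)).trans (frac_step (m + d) Q hQ (by omega))

theorem t_T2 (h : T0) : T2 := by
  intro V _ _ m p Q h0 h1 hQ hm h8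
  rw [h V p Q]
  set N : ℕ := (pairs V).card with hNd
  have hq : 0 ≤ 1 - p := by linarith
  have hb : ∀ k, 0 ≤ (N.choose k : ℝ) * p ^ k * (1 - p) ^ (N - k) := by
    intro k
    positivity
  have hmN : m ≤ N := by
    have h2 : p * (N : ℝ) ≤ N := by
      have : (0 : ℝ) ≤ N := Nat.cast_nonneg N
      nlinarith
    have h3 : (0 : ℝ) ≤ m := Nat.cast_nonneg m
    have : (m : ℝ) ≤ N := by linarith
    exact_mod_cast this
  have htail := lower_tail N m p h0 h1 hm h8
  have htot := total N p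
  have hsplit : ∀ f : ℕ → ℝ, ∑ k ∈ range (N + 1), f k =
      ∑ k ∈ range m, f k + ∑ k ∈ Ico m (N + 1), f k := by
    intro f
    rw [← sum_range_add_sum_Ico f (by omega : m ≤ N + 1)]
  rw [hsplit] at htot
  rw [hsplit]
  have h5 : 0 ≤ ∑ k ∈ range m, (N.choose k : ℝ) * p ^ k * (1 - p) ^ (N - k) * frac k Q :=
    sum_nonneg fun k _ => mul_nonneg (hb k) (frac_nonneg k Q)
  have h6 : (∑ k ∈ Ico m (N + 1), (N.choose k : ℝ) * p ^ k * (1 - p) ^ (N - k)) * frac m Q ≤
      ∑ k ∈ Ico m (N + 1), (N.choose k : ℝ) * p ^ k * (1 - p) ^ (N - k) * frac k Q := by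
    rw [sum_mul]
    apply sum_le_sum
    intro k hk
    rw [mem_Ico] at hk
    apply mul_le_mul_of_nonneg_left _ (hb k)
    obtain ⟨d, rfl⟩ : ∃ d, k = m + d := ⟨k - m, by omega⟩
    exact frac_mono m Q hQ d (by omega)
  have h7 : 0 ≤ frac m Q := frac_nonneg m Q
  have h8 : (1 / 2 : ℝ) ≤ ∑ k ∈ Ico m (N + 1), (N.choose k : ℝ) * p ^ k * (1 - p) ^ (N - k) := by
    linarith
  nlinarith

end Run7.h626.RP
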